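import Pool.Agent.Lib.MP_391708_nt.MR.Basic
import Pool.Agent.Lib.MP_391708_nt.X.SpecO

/-!
# THEOREM X, module CNTX: from tuples of Gaussian primes to the numbers `n ^ 2 + b ^ 2`

The sum of `Eta` over the lines counts each `1 ≤ n ≤ N` at most once, and only `n` for which `n ^ 2 + b ^ 2` is
a product of `k` different primes.
-/

set_option autoImplicit false

namespace Pool.Agent.Lib.MP391708.X

open Finset Pool.Agent.Lib.MP391708.MR

namespace CNTXM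

/-- A local form of the conditions on `Y`: the norm is a product of `m` different primes, all at most `R`;
one of each class of associates. -/
structure YLK (m : ℕ) (R : ℝ) (Y : Finset Gi) : Prop where
  sq : ∀ y ∈ Y, Squarefree (nm y)
  card : ∀ y ∈ Y, (nm y).primeFactors.card = m
  le : ∀ y ∈ Y, ∀ q : ℕ, q.Prime → q ∣ nm y → (q : ℝ) ≤ R
  ass : ∀ y ∈ Y, ∀ y' ∈ Y, Associated y y' → y = y'

/-- The ranges of the norms are different: `R ≤ P`, `2P ≤ M₄`, `2M₄ ≤ M₂`, `2M₂ ≤ K/N(y)`. -/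
structure ROK (p : Par) (R : ℝ) (Y : Finset Gi) : Prop where
  posN : 0 ≤ p.N
  posT : 0 < p.T
  posP : 0 < p.P
  r1 : R ≤ p.P
  r2 : 2 * p.P ≤ p.M4
  r3 : 2 * p.M4 ≤ p.M2
  r4 : ∀ y ∈ Y, 2 * p.M2 ≤ p.K / nm y

lemma card_mul {a p k : ℕ} (ha : Squarefree a) (hk : a.primeFactors.card = k) (hp : p.Prime) (h : ¬ p ∣ a) :
    Squarefree (a * p) ∧ (a * p).primeFactors.card = k + 1 := by
  have hc : Nat.Coprime a p := (Nat.coprime_comm.1 ((Nat.Prime.coprime_iff_not_dvd hp).2 h))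
  refine ⟨(Nat.squarefree_mul hc).2 ⟨ha, hp.squarefree⟩, ?_⟩
  rw [hc.primeFactors_mul, card_union_of_disjoint hc.disjoint_primeFactors, hk, hp.primeFactors, card_singleton]

lemma nm_re_im {z : Gi} {b n : ℕ} (h1 : z.im = b) (h2 : z.re = n) : nm z = n ^ 2 + b ^ 2 := by
  have h := nm_cast z
  rw [h1, h2] at h
  exact_mod_cast h

/-- The tuples `(y, z₁, π₃, z, π₄, π₂)` which give `n + b i`. -/
structure Tup (p : Par) (Y : Finset Gi) (b : ℕ) (y z₁ π₃ z π₄ π₂ : Gi) : Prop where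
  hy : y ∈ Y
  h1 : z₁ ∈ GP (p.K / nm y) (2 * p.K / nm y)
  h3 : π₃ ∈ GP p.P (2 * p.P)
  h4 : π₄ ∈ GP p.M4 (2 * p.M4)
  h2 : π₂ ∈ GP p.M2 (2 * p.M2)
  as : Associated (π₄ * π₂) z
  im : (y * z₁ * π₃ * z).im = (b : ℤ)
  re : 0 < (y * z₁ * π₃ * z).re

lemma nm_ass {x y : Gi} (h : Associated x y) : nm x = nm y := by
  obtain ⟨u, hu⟩ := h
  rw [← hu, nm_mul, isUnit_iff_nm.1 u.isUnit, mul_one]

lemma ne_of_ranges {P P' Q Q' : ℝ} {z z' : Gi} (h : P' ≤ Q) (hz : z ∈ GP P P') (hz' : z' ∈ GP Q Q') :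
    nm z ≠ nm z' := by
  intro he
  have h1 := (mem_GP.1 hz).2.2.2.2.2
  have h2 := (mem_GP.1 hz').2.2.2.2.1
  rw [he] at h1
  linarith

lemma dvd_GP {P P' Q Q' : ℝ} {z z' : Gi} (hz : z ∈ GP P P') (hz' : z' ∈ GP Q Q') (h : z ∣ z') : z = z' :=
  (GP_eq_of_dvd hz hz' h).symm

/-- All the facts about one tuple. -/
lemma tup_facts (k b : ℕ) (hk : 4 ≤ k) (p : Par) (R : ℝ) (Y : Finset Gi) (hY : YLK (k - 4) R Y)
    (hR : ROK p R Y) {y z₁ π₃ z π₄ π₂ : Gi} (t : Tup p Y b y z₁ π₃ z π₄ π₂) :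
    PrK k (nm (y * z₁ * π₃ * z)) ∧ (nm (y * z₁ * π₃ * z) : ℝ) ≤ p.N ^ 2 := by
  obtain ⟨hy, h1, h3, h4, h2, as, him, hre⟩ := t
  have hz : nm z = nm π₄ * nm π₂ := by rw [← nm_ass as, nm_mul]
  have e : nm (y * z₁ * π₃ * z) = nm y * nm π₃ * nm π₄ * nm π₂ * nm z₁ := by
    rw [nm_mul, nm_mul, nm_mul, hz]; ring
  have P1 := (mem_GP.1 h1).2.2
  have P3 := (mem_GP.1 h3).2.2
  have P4 := (mem_GP.1 h4).2.2
  have P2 := (mem_GP.1 h2).2.2
  have hr4 := hR.r4 y hy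
  have hr1 := hR.r1
  have hr2 := hR.r2
  have hr3 := hR.r3
  have hP := hR.posP
  have ne : ∀ {a c : ℕ}, a.Prime → c.Prime → (c : ℝ) < a → ¬ a ∣ c := by
    intro a c ha hc hne hd
    have := (Nat.prime_dvd_prime_iff_eq ha hc).1 hd
    rw [this] at hne
    exact lt_irrefl _ hne
  have ny : ∀ {a : ℕ}, a.Prime → R < (a : ℝ) → ¬ a ∣ nm y := by
    intro a ha h5 hd
    have := hY.le y hy a ha hd
    linarith
  obtain ⟨s1, c1⟩ := card_mul (hY.sq y hy) (hY.card y hy) P3.1 (ny P3.1 (by linarith [P3.2.2.1]))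
  obtain ⟨s2, c2⟩ := card_mul s1 c1 P4.1 (by
    rw [P4.1.dvd_mul]
    exact not_or.2 ⟨ny P4.1 (by linarith [P4.2.2.1]), ne P4.1 P3.1 (by linarith [P4.2.2.1, P3.2.2.2])⟩)
  obtain ⟨s3, c3⟩ := card_mul s2 c2 P2.1 (by
    rw [P2.1.dvd_mul, P2.1.dvd_mul]
    exact not_or.2 ⟨not_or.2 ⟨ny P2.1 (by linarith [P2.2.2.1]), ne P2.1 P3.1 (by linarith [P2.2.2.1, P3.2.2.2])⟩,
      ne P2.1 P4.1 (by linarith [P2.2.2.1, P4.2.2.2])⟩)
  obtain ⟨s4, c4⟩ := card_mul s3 c3 P1.1 (by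
    rw [P1.1.dvd_mul, P1.1.dvd_mul, P1.1.dvd_mul]
    exact not_or.2 ⟨not_or.2 ⟨not_or.2 ⟨ny P1.1 (by linarith [P1.2.2.1]),
      ne P1.1 P3.1 (by linarith [P1.2.2.1, P3.2.2.2])⟩,
      ne P1.1 P4.1 (by linarith [P1.2.2.1, P4.2.2.2])⟩, ne P1.1 P2.1 (by linarith [P1.2.2.1, P2.2.2.2])⟩)
  refine ⟨⟨by rw [e]; exact s4, by rw [e, c4]; omega⟩, ?_⟩
  rw [e]
  push_cast
  have hyp : 0 < (nm y : ℝ) := by
    have : nm y ≠ 0 := (hY.sq y hy).ne_zero
    positivity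
  have h5 : (nm y : ℝ) * nm z₁ ≤ 2 * p.K := by
    have := P1.2.2.2
    rw [le_div_iff₀ hyp] at this
    linarith
  have hM4 : 0 ≤ p.M4 := Real.sqrt_nonneg _
  have hM2 : 0 ≤ p.M2 := by linarith
  have hK : 0 ≤ p.K := div_nonneg hR.posN hR.posT.le
  calc (nm y : ℝ) * nm π₃ * nm π₄ * nm π₂ * nm z₁ = (nm y * nm z₁) * nm π₃ * nm π₄ * nm π₂ := by ring
    _ ≤ (2 * p.K) * (2 * p.P) * (2 * p.M4) * (2 * p.M2) :=
        mul_le_mul (mul_le_mul (mul_le_mul h5 P3.2.2.2 (by positivity) (by positivity)) P4.2.2.2 (by positivity)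
          (by positivity)) P2.2.2.2 (by positivity) (by positivity)
    _ = p.N ^ 2 := by
        unfold Par.K Par.M4 Par.M2
        have := hR.posT
        have hs : Real.sqrt p.N * Real.sqrt p.N = p.N := Real.mul_self_sqrt hR.posN
        field_simp
        nlinarith [hs]

lemma tup_inj (k b : ℕ) (p : Par) (R : ℝ) (Y : Finset Gi) (hY : YLK (k - 4) R Y)
    (hR : ROK p R Y) {y z₁ π₃ z π₄ π₂ : Gi} (t : Tup p Y b y z₁ π₃ z π₄ π₂)
    {y' z₁' π₃' z' π₄' π₂' : Gi} (t' : Tup p Y b y' z₁' π₃' z' π₄' π₂')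
    (h : (y * z₁ * π₃ * z).re = (y' * z₁' * π₃' * z').re) :
    y = y' ∧ z₁ = z₁' ∧ π₃ = π₃' ∧ z = z' ∧ π₄ = π₄' ∧ π₂ = π₂' := by
  obtain ⟨hy, h1, h3, h4, h2, as, him, hre⟩ := t
  obtain ⟨hy', h1', h3', h4', h2', as', him', hre'⟩ := t'
  have hzz : y * z₁ * π₃ * z = y' * z₁' * π₃' * z' := Zsqrtd.ext h (by rw [him, him'])
  have hr4 := hR.r4 y hy
  have hr4' := hR.r4 y' hy'
  have hr1 := hR.r1
  have hr2 := hR.r2
  have hr3 := hR.r3
  have hP := hR.posP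
  have hM4 : 0 ≤ p.M4 := Real.sqrt_nonneg _
  have hM2 : 0 ≤ p.M2 := by linarith
  -- a prime of a range divides the factor of the same range
  have key : ∀ x : Gi, Prime x → R < (nm x : ℝ) → (nm x).Prime → x ∣ y' * z₁' * π₃' * z' →
      x ∣ z₁' ∨ x ∣ π₃' ∨ x ∣ π₄' ∨ x ∣ π₂' := by
    intro x hx hxR hxp hd
    rcases hx.dvd_or_dvd hd with hd | hd
    · rcases hx.dvd_or_dvd hd with hd | hd
      · rcases hx.dvd_or_dvd hd with hd | hd
        · exfalso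
          have h5 := hY.le y' hy' (nm x) hxp (nm_dvd hd)
          linarith
        · exact Or.inl hd
      · exact Or.inr (Or.inl hd)
    · have h6 : x ∣ π₄' * π₂' := hd.trans as'.symm.dvd
      rcases hx.dvd_or_dvd h6 with h6 | h6
      · exact Or.inr (Or.inr (Or.inl h6))
      · exact Or.inr (Or.inr (Or.inr h6))
  have hs := as.dvd
  have e3 : π₃ = π₃' := by
    rcases key π₃ (GP_prime h3) (by linarith [(mem_GP.1 h3).2.2.2.2.1]) (mem_GP.1 h3).2.2.1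
      (by rw [← hzz]; exact ⟨y * z₁ * z, by ring⟩) with h6 | h6 | h6 | h6
    · exact absurd (congrArg nm (dvd_GP h3 h1' h6)) (ne_of_ranges (by linarith) h3 h1')
    · exact dvd_GP h3 h3' h6
    · exact absurd (congrArg nm (dvd_GP h3 h4' h6)) (ne_of_ranges (by linarith) h3 h4')
    · exact absurd (congrArg nm (dvd_GP h3 h2' h6)) (ne_of_ranges (by linarith) h3 h2')
  have e4 : π₄ = π₄' := by
    rcases key π₄ (GP_prime h4) (by linarith [(mem_GP.1 h4).2.2.2.2.1]) (mem_GP.1 h4).2.2.1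
      (by rw [← hzz]; exact (Dvd.intro _ rfl : π₄ ∣ π₄ * π₂).trans (hs.trans ⟨y * z₁ * π₃, by ring⟩))
      with h6 | h6 | h6 | h6
    · exact absurd (congrArg nm (dvd_GP h4 h1' h6)) (ne_of_ranges (by linarith) h4 h1')
    · exact absurd (congrArg nm (dvd_GP h4 h3' h6)).symm (ne_of_ranges (by linarith) h3' h4)
    · exact dvd_GP h4 h4' h6
    · exact absurd (congrArg nm (dvd_GP h4 h2' h6)) (ne_of_ranges (by linarith) h4 h2')
  have e2 : π₂ = π₂' := by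
    rcases key π₂ (GP_prime h2) (by linarith [(mem_GP.1 h2).2.2.2.2.1]) (mem_GP.1 h2).2.2.1
      (by rw [← hzz]; exact (Dvd.intro_left _ rfl : π₂ ∣ π₄ * π₂).trans (hs.trans ⟨y * z₁ * π₃, by ring⟩))
      with h6 | h6 | h6 | h6
    · exact absurd (congrArg nm (dvd_GP h2 h1' h6)) (ne_of_ranges (by linarith) h2 h1')
    · exact absurd (congrArg nm (dvd_GP h2 h3' h6)).symm (ne_of_ranges (by linarith) h3' h2)
    · exact absurd (congrArg nm (dvd_GP h2 h4' h6)).symm (ne_of_ranges (by linarith) h4' h2)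
    · exact dvd_GP h2 h2' h6
  have e1 : z₁ = z₁' := by
    rcases key z₁ (GP_prime h1) (by linarith [(mem_GP.1 h1).2.2.2.2.1]) (mem_GP.1 h1).2.2.1
      (by rw [← hzz]; exact ⟨y * π₃ * z, by ring⟩) with h6 | h6 | h6 | h6
    · exact dvd_GP h1 h1' h6
    · exact absurd (congrArg nm (dvd_GP h1 h3' h6)).symm (ne_of_ranges (by linarith) h3' h1)
    · exact absurd (congrArg nm (dvd_GP h1 h4' h6)).symm (ne_of_ranges (by linarith) h4' h1)
    · exact absurd (congrArg nm (dvd_GP h1 h2' h6)).symm (ne_of_ranges (by linarith) h2' h1)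
  have hass : Associated z z' := by
    rw [← e4, ← e2] at as'
    exact as.symm.trans as'
  have h1n := GP_ne_zero h1
  have h3n := GP_ne_zero h3
  obtain ⟨u, hu⟩ := hass
  have hzn : z ≠ 0 := by
    intro h0
    rw [h0] at him hre
    simp at hre
  have hyy : y = y' * u := by
    rw [← e1, ← e3, ← hu] at hzz
    have h7 : (y - y' * u) * (z₁ * π₃ * z) = 0 := by linear_combination hzz
    rcases mul_eq_zero.1 h7 with h8 | h8
    · exact sub_eq_zero.1 h8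
    · exact absurd h8 (mul_ne_zero (mul_ne_zero h1n h3n) hzn)
  have ey : y = y' := hY.ass y hy y' hy' ⟨u⁻¹, by rw [hyy]; simp [mul_assoc]⟩
  refine ⟨ey, e1, e3, ?_, e4, e2⟩
  rw [← ey, ← e1, ← e3] at hzz
  have hyn : y ≠ 0 := by
    intro h0
    have h9 := (hY.sq y hy).ne_zero
    rw [h0] at h9
    exact h9 nm_zero
  exact mul_left_cancel₀ (mul_ne_zero (mul_ne_zero hyn h1n) h3n) hzz

open scoped Classical in
/-- the integer form of `Eta` -/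
noncomputable def EtaN (p : Par) (z : Gi) : ℕ := ∑ v4 ∈ I4 p, ∑ v2 ∈ I2 p,
  ((cell p.h p.M4 (2 * p.M4) v4 ×ˢ cell p.h p.M2 (2 * p.M2) v2).filter
    (fun q => Associated (q.1 * q.2) z)).card

lemma Eta_eq (p : Par) (z : Gi) : Eta p z = (EtaN p z : ℂ) := by
  unfold Eta eta EtaN
  push_cast
  rfl

/-- REP: the representations are counted by the numbers `n` for which `n ^ 2 + b ^ 2` is a product of `k` different
primes. -/
theorem rep (k b : ℕ) (hk : 4 ≤ k) (p : Par) (R : ℝ) (Y : Finset Gi) (hY : YLK (k - 4) R Y)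
    (hR : ROK p R Y) : (∑ y ∈ Y, sy p y b (Eta p)).re ≤ (cnt k b p.N : ℝ) := by
  classical
  have e1 : ∑ y ∈ Y, sy p y b (Eta p) = ((∑ y ∈ Y, ∑ z₁ ∈ GP (p.K / nm y) (2 * p.K / nm y),
      ∑ π ∈ GP p.P (2 * p.P), ∑ z ∈ (disc (p.N * p.T)).filter (On (y * z₁ * π) b), EtaN p z : ℕ) : ℂ) := by
    unfold sy ls
    push_cast
    simp only [Eta_eq]
  rw [e1, Complex.natCast_re]
  norm_cast
  set S : Finset (Σ _ : Gi, Σ _ : Gi, Σ _ : Gi, Σ _ : Gi, Σ _ : ℕ, Σ _ : ℕ, Gi × Gi) :=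
    Y.sigma fun y => (GP (p.K / nm y) (2 * p.K / nm y)).sigma fun z₁ => (GP p.P (2 * p.P)).sigma fun π =>
      ((disc (p.N * p.T)).filter (On (y * z₁ * π) b)).sigma fun z => (I4 p).sigma fun v4 => (I2 p).sigma fun v2 =>
        ((cell p.h p.M4 (2 * p.M4) v4 ×ˢ cell p.h p.M2 (2 * p.M2) v2).filter
          (fun q => Associated (q.1 * q.2) z)) with hS
  have e2 : (∑ y ∈ Y, ∑ z₁ ∈ GP (p.K / nm y) (2 * p.K / nm y),
      ∑ π ∈ GP p.P (2 * p.P), ∑ z ∈ (disc (p.N * p.T)).filter (On (y * z₁ * π) b), EtaN p z) = S.card := by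
    rw [hS]
    simp only [card_sigma]
    rfl
  rw [e2]
  -- the facts
  have facts : ∀ x ∈ S, Tup p Y b x.1 x.2.1 x.2.2.1 x.2.2.2.1 x.2.2.2.2.2.2.1 x.2.2.2.2.2.2.2 ∧
      ⌊p.h * Real.log (nm x.2.2.2.2.2.2.1)⌋₊ = x.2.2.2.2.1 ∧
      ⌊p.h * Real.log (nm x.2.2.2.2.2.2.2)⌋₊ = x.2.2.2.2.2.1 := by
    rintro ⟨y, z₁, π, z, v4, v2, q₁, q₂⟩ hx
    rw [hS] at hx
    simp only [mem_sigma, mem_filter, mem_product] at hx
    obtain ⟨hy, h1, h3, ⟨hz, hOn⟩, hv4, hv2, ⟨h4, h2⟩, has⟩ := hx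
    unfold cell at h4 h2
    rw [mem_filter] at h4 h2
    exact ⟨⟨hy, h1, h3, h4.1, h2.1, has, hOn.1, hOn.2⟩, h4.2, h2.2⟩
  unfold cnt
  apply card_le_card_of_injOn (fun x => ((x.1 * x.2.1 * x.2.2.1 * x.2.2.2.1).re).toNat)
  · intro x hx
    obtain ⟨t, -, -⟩ := facts x hx
    obtain ⟨hpr, hle⟩ := tup_facts k b hk p R Y hY hR t
    have hre := t.re
    have him := t.im
    set z := x.1 * x.2.1 * x.2.2.1 * x.2.2.2.1 with hz
    have hn : z.re = ((z.re.toNat : ℕ) : ℤ) := (Int.toNat_of_nonneg (by omega)).symm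
    have hnm : nm z = z.re.toNat ^ 2 + b ^ 2 := nm_re_im him hn
    rw [mem_coe, mem_filter, mem_Icc]
    change (1 ≤ z.re.toNat ∧ z.re.toNat ≤ ⌊p.N⌋₊) ∧ PrK k (z.re.toNat ^ 2 + b ^ 2)
    refine ⟨⟨by omega, ?_⟩, by rw [← hnm]; exact hpr⟩
    apply Nat.le_floor
    rw [hnm] at hle
    push_cast at hle
    have h8 : ((z.re.toNat : ℕ) : ℝ) ^ 2 ≤ p.N ^ 2 := by nlinarith [sq_nonneg (b : ℝ)]
    exact le_of_sq_le_sq h8 hR.posN
  · intro x hx x' hx' hxx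
    obtain ⟨t, f4, f2⟩ := facts x hx
    obtain ⟨t', f4', f2'⟩ := facts x' hx'
    have hre := t.re
    have hre' := t'.re
    have h9 : (x.1 * x.2.1 * x.2.2.1 * x.2.2.2.1).re = (x'.1 * x'.2.1 * x'.2.2.1 * x'.2.2.2.1).re := by
      simp only at hxx
      omega
    obtain ⟨a1, a2, a3, a4, a5, a6⟩ := tup_inj k b p R Y hY hR t t' h9
    obtain ⟨y, z₁, π, z, v4, v2, q₁, q₂⟩ := x
    obtain ⟨y', z₁', π', z', v4', v2', q₁', q₂'⟩ := x'
    simp only at a1 a2 a3 a4 a5 a6 f4 f2 f4' f2'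
    subst a1 a2 a3 a4 a5 a6
    subst f4 f2
    subst f4' f2'
    rfl

end CNTXM

open CNTXM in
theorem specCNTX : SpecCNTX := by
  intro k p Y z b hk hP hh hT hN hY h1 h2 h3 hb
  refine rep k b hk p p.P Y ⟨fun y hy => (hY.sq y hy).1, fun y hy => (hY.sq y hy).2, ?_, hY.na⟩
    ⟨by linarith, hT, by linarith, le_rfl, h1.le, h2.le, ?_⟩
  · intro y hy q _ hd
    have h4 : q ≤ nm y := Nat.le_of_dvd (Nat.pos_of_ne_zero (hY.sq y hy).1.ne_zero) hd
    have h5 : (q : ℝ) ≤ nm y := by exact_mod_cast h4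
    exact h5.trans (hY.le y hy)
  · intro y hy
    have h4 : 0 < (nm y : ℝ) := by exact_mod_cast Nat.pos_of_ne_zero (hY.sq y hy).1.ne_zero
    have hK : 0 ≤ p.K := div_nonneg (by linarith) hT.le
    exact h3.le.trans (div_le_div_of_nonneg_left hK h4 (hY.le y hy))

end Pool.Agent.Lib.MP391708.X
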