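import Pool.Agent.Lib.MP_391708_nt.X.SpecO
import Pool.Agent.Lib.MP_391708_nt.MR.Basic

/-!
# THEOREM X (MP_391708), part O, module CSX: Cauchy–Schwarz for the outer factors
-/

set_option autoImplicit false

namespace Pool.Agent.Lib.MP391708.X

open Finset Filter Topology Pool.Agent.Lib.MP391708.MR
open scoped ComplexConjugate

namespace CSXM

/-- a Gaussian integer with squarefree norm is not zero -/
lemma ne_zero_of_sq {y : Gi} (h : Squarefree (nm y)) : y ≠ 0 := by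
  intro h0
  exact h.ne_zero (nm_eq_zero.2 h0)

/-- a Gaussian integer with squarefree norm is primitive -/
lemma prim_of_sq {z : Gi} (h : Squarefree (nm z)) : prim z := by
  unfold prim
  have h1 : ((Int.gcd z.re z.im : ℕ) : ℤ) ∣ z.re := Int.gcd_dvd_left ..
  have h2 : ((Int.gcd z.re z.im : ℕ) : ℤ) ∣ z.im := Int.gcd_dvd_right ..
  have h3 : (((Int.gcd z.re z.im) * (Int.gcd z.re z.im) : ℕ) : ℤ) ∣ ((nm z : ℕ) : ℤ) := by
    rw [nm_cast]
    obtain ⟨a, ha⟩ := h1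
    obtain ⟨c, hc⟩ := h2
    refine ⟨a ^ 2 + c ^ 2, ?_⟩
    push_cast
    nth_rw 1 [ha]
    nth_rw 2 [hc]
    ring
  have h4 : (Int.gcd z.re z.im) * (Int.gcd z.re z.im) ∣ nm z := Int.natCast_dvd_natCast.1 h3
  exact Nat.isUnit_iff.1 (h _ h4)

/-- the facts about one pair `(y, z₁)` -/
lemma pair {r : ℕ} {p : Par} {Y : Finset Gi} {z : ℝ} (hP : 2 ≤ p.P)
    (hPK : p.P ^ 2 < p.K) (hY : YOK r z p.P Y) {y z₁ : Gi} (hy : y ∈ Y)
    (hz : z₁ ∈ GP (p.K / nm y) (2 * p.K / nm y)) :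
    p.K < (nm (y * z₁) : ℝ) ∧ (nm (y * z₁) : ℝ) ≤ 2 * p.K ∧ p.P < (nm z₁ : ℝ) ∧
      Squarefree (nm (y * z₁)) := by
  have hsq := (hY.sq y hy).1
  have hy0 : y ≠ 0 := ne_zero_of_sq hsq
  have hn : (0 : ℝ) < nm y := nm_posR hy0
  have hle := hY.le y hy
  have hP0 : (0 : ℝ) < p.P := by linarith
  have hz' := mem_GP.1 hz
  obtain ⟨_, _, hpr, _, hlo, hhi⟩ := hz'
  have h1 : p.K < (nm y : ℝ) * nm z₁ := by
    rw [div_lt_iff₀ hn] at hlo
    linarith
  have h2 : (nm y : ℝ) * nm z₁ ≤ 2 * p.K := by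
    rw [le_div_iff₀ hn] at hhi
    linarith
  have h3 : p.P < (nm z₁ : ℝ) := by
    have h4 : p.P * p.P < p.P * nm z₁ := by
      calc p.P * p.P = p.P ^ 2 := by ring
        _ < p.K := hPK
        _ < (nm y : ℝ) * nm z₁ := h1
        _ ≤ p.P * nm z₁ := mul_le_mul_of_nonneg_right hle (Nat.cast_nonneg _)
    exact lt_of_mul_lt_mul_left h4 hP0.le
  refine ⟨?_, ?_, h3, ?_⟩
  · rw [nm_mul]; push_cast; exact h1
  · rw [nm_mul]; push_cast; exact h2
  · rw [nm_mul, Nat.squarefree_mul_iff]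
    refine ⟨?_, hsq, hpr.squarefree⟩
    refine Nat.Coprime.symm ((Nat.Prime.coprime_iff_not_dvd hpr).2 ?_)
    intro hd
    have h5 := Nat.le_of_dvd (nm_pos hy0) hd
    have h6 : (nm z₁ : ℝ) ≤ nm y := by exact_mod_cast h5
    linarith

/-- the map `(y, z₁) ↦ y z₁` is injective -/
lemma inj {r : ℕ} {p : Par} {Y : Finset Gi} {z : ℝ} (hP : 2 ≤ p.P)
    (hPK : p.P ^ 2 < p.K) (hY : YOK r z p.P Y) :
    Set.InjOn (fun x : (_ : Gi) × Gi => x.1 * x.2)
      (Y.sigma (fun y => GP (p.K / nm y) (2 * p.K / nm y)) : Finset ((_ : Gi) × Gi)) := by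
  rintro ⟨y, z₁⟩ hx ⟨y', z₁'⟩ hx' he
  rw [Finset.mem_coe, Finset.mem_sigma] at hx hx'
  simp only at hx hx' he
  obtain ⟨hy, hz⟩ := hx
  obtain ⟨hy', hz'⟩ := hx'
  have hpz : Prime z₁ := GP_prime hz
  have hbig := (pair hP hPK hY hy hz).2.2.1
  have hy0' : y' ≠ 0 := ne_zero_of_sq (hY.sq y' hy').1
  have hd : z₁ ∣ y' * z₁' := ⟨y, by rw [← he]; ring⟩
  have hzz : z₁' = z₁ := by
    rcases hpz.dvd_or_dvd hd with h | h
    · exfalso
      have h1 := Nat.le_of_dvd (nm_pos hy0') (nm_dvd h)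
      have h2 : (nm z₁ : ℝ) ≤ nm y' := by exact_mod_cast h1
      have h3 := hY.le y' hy'
      linarith
    · exact GP_eq_of_dvd hz hz' h
  subst hzz
  have hyy : y = y' := mul_right_cancel₀ (GP_ne_zero hz) he
  subst hyy
  rfl

end CSXM

open CSXM in
theorem specCSX : SpecCSX := by
  intro r p Y z B g hP _hT hK hPK hY
  unfold Var
  rw [Finset.mul_sum]
  refine Finset.sum_le_sum (fun b _ => ?_)
  set S : Finset ((_ : Gi) × Gi) := Y.sigma (fun y => GP (p.K / nm y) (2 * p.K / nm y)) with hS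
  set W : Finset Gi := (ann p.K (2 * p.K)).filter prim with hW
  have hmap : ∀ x ∈ S, x.1 * x.2 ∈ W := by
    rintro ⟨y, z₁⟩ hx
    rw [hS, Finset.mem_sigma] at hx
    obtain ⟨hy, hz⟩ := hx
    obtain ⟨h1, h2, _, h4⟩ := pair hP hPK hY hy hz
    rw [hW, Finset.mem_filter, mem_ann]
    exact ⟨⟨ne_zero_of_sq h4, h1, h2⟩, prim_of_sq h4⟩
  have hinj : Set.InjOn (fun x : (_ : Gi) × Gi => x.1 * x.2) (S : Set ((_ : Gi) × Gi)) :=
    inj hP hPK hY
  have hsum : ∑ y ∈ Y, sy p y b g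
      = ∑ ζ ∈ S.image (fun x : (_ : Gi) × Gi => x.1 * x.2), ls p ζ b g := by
    rw [Finset.sum_image hinj, hS, Finset.sum_sigma]
    rfl
  have hsub : S.image (fun x : (_ : Gi) × Gi => x.1 * x.2) ⊆ W := by
    intro ζ hζ
    rw [Finset.mem_image] at hζ
    obtain ⟨x, hx, rfl⟩ := hζ
    exact hmap x hx
  rw [hsum]
  have hcard : ((S.image (fun x : (_ : Gi) × Gi => x.1 * x.2)).card : ℝ) ≤ 20 * p.K := by
    have h1 : (S.image (fun x : (_ : Gi) × Gi => x.1 * x.2)).card ≤ (disc (2 * p.K)).card := by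
      refine Finset.card_le_card (hsub.trans ?_)
      exact (Finset.filter_subset _ _).trans (ann_subset_disc _ _)
    have h2 : ((disc (2 * p.K)).card : ℝ) ≤ 9 * (2 * p.K) := card_disc_le (by linarith)
    have h3 : ((S.image (fun x : (_ : Gi) × Gi => x.1 * x.2)).card : ℝ)
        ≤ (disc (2 * p.K)).card := by exact_mod_cast h1
    linarith
  calc ‖∑ ζ ∈ S.image (fun x : (_ : Gi) × Gi => x.1 * x.2), ls p ζ b g‖ ^ 2
      ≤ (∑ ζ ∈ S.image (fun x : (_ : Gi) × Gi => x.1 * x.2), ‖ls p ζ b g‖) ^ 2 := by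
        refine pow_le_pow_left₀ (norm_nonneg _) (norm_sum_le _ _) 2
    _ ≤ ((S.image (fun x : (_ : Gi) × Gi => x.1 * x.2)).card : ℝ) *
          ∑ ζ ∈ S.image (fun x : (_ : Gi) × Gi => x.1 * x.2), ‖ls p ζ b g‖ ^ 2 :=
        sq_sum_le_card_mul_sum_sq
    _ ≤ 20 * p.K * ∑ ζ ∈ W, ‖ls p ζ b g‖ ^ 2 := by
        refine mul_le_mul hcard ?_ (Finset.sum_nonneg (fun _ _ => sq_nonneg _)) (by linarith)
        exact Finset.sum_le_sum_of_subset_of_nonneg hsub (fun _ _ _ => sq_nonneg _)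

end Pool.Agent.Lib.MP391708.X
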