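import Pool.Agent.Lib.MP_391708_nt.X.Spec2
import Pool.Agent.Lib.MP_391708_nt.X.O.CSX

/-!
# THEOREM X (MP_391708), part O, module CSX2: Cauchy–Schwarz for the outer factors, full lines
-/

set_option autoImplicit false

namespace Pool.Agent.Lib.MP391708.X

open Finset Filter Topology Pool.Agent.Lib.MP391708.MR
open scoped ComplexConjugate

namespace CSX2M

/-- Cauchy–Schwarz for the outer factors, any function of the product -/
lemma general {r : ℕ} {p : Par} {Y : Finset Gi} {z : ℝ} (hP : 2 ≤ p.P) (hK : 1 ≤ p.K)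
    (hPK : p.P ^ 2 < p.K) (hY : YOK r z p.P Y) (F : Gi → ℂ) :
    ‖∑ y ∈ Y, ∑ z₁ ∈ GP (p.K / nm y) (2 * p.K / nm y), F (y * z₁)‖ ^ 2 ≤
      20 * p.K * ∑ ζ ∈ (ann p.K (2 * p.K)).filter prim, ‖F ζ‖ ^ 2 := by
  set S : Finset ((_ : Gi) × Gi) := Y.sigma (fun y => GP (p.K / nm y) (2 * p.K / nm y)) with hS
  set W : Finset Gi := (ann p.K (2 * p.K)).filter prim with hW
  have hmap : ∀ x ∈ S, x.1 * x.2 ∈ W := by
    rintro ⟨y, z₁⟩ hx
    rw [hS, Finset.mem_sigma] at hx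
    obtain ⟨hy, hz⟩ := hx
    obtain ⟨h1, h2, _, h4⟩ := CSXM.pair hP hPK hY hy hz
    rw [hW, Finset.mem_filter, mem_ann]
    exact ⟨⟨CSXM.ne_zero_of_sq h4, h1, h2⟩, CSXM.prim_of_sq h4⟩
  have hinj : Set.InjOn (fun x : (_ : Gi) × Gi => x.1 * x.2) (S : Set ((_ : Gi) × Gi)) :=
    CSXM.inj hP hPK hY
  have hsum : ∑ y ∈ Y, ∑ z₁ ∈ GP (p.K / nm y) (2 * p.K / nm y), F (y * z₁)
      = ∑ ζ ∈ S.image (fun x : (_ : Gi) × Gi => x.1 * x.2), F ζ := by
    rw [Finset.sum_image hinj, hS, Finset.sum_sigma]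
  have hsub : S.image (fun x : (_ : Gi) × Gi => x.1 * x.2) ⊆ W := by
    intro ζ hζ
    rw [Finset.mem_image] at hζ
    obtain ⟨x, hx, rfl⟩ := hζ
    exact hmap x hx
  rw [hsum]
  have hcard : ((S.image (fun x : (_ : Gi) × Gi => x.1 * x.2)).card : ℝ) ≤ 20 * p.K := by
    have h1 : (S.image (fun x : (_ : Gi) × Gi => x.1 * x.2)).card ≤ (disc (2 * p.K)).card := by
      refine Finset.card_le_card (hsub.trans ?_)
      exact (Finset.filter_subset _ _).trans (ann_subset_disc _ _)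
    have h2 : ((disc (2 * p.K)).card : ℝ) ≤ 9 * (2 * p.K) := card_disc_le (by linarith)
    have h3 : ((S.image (fun x : (_ : Gi) × Gi => x.1 * x.2)).card : ℝ)
        ≤ (disc (2 * p.K)).card := by exact_mod_cast h1
    linarith
  calc ‖∑ ζ ∈ S.image (fun x : (_ : Gi) × Gi => x.1 * x.2), F ζ‖ ^ 2
      ≤ (∑ ζ ∈ S.image (fun x : (_ : Gi) × Gi => x.1 * x.2), ‖F ζ‖) ^ 2 := by
        refine pow_le_pow_left₀ (norm_nonneg _) (norm_sum_le _ _) 2
    _ ≤ ((S.image (fun x : (_ : Gi) × Gi => x.1 * x.2)).card : ℝ) *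
          ∑ ζ ∈ S.image (fun x : (_ : Gi) × Gi => x.1 * x.2), ‖F ζ‖ ^ 2 :=
        sq_sum_le_card_mul_sum_sq
    _ ≤ 20 * p.K * ∑ ζ ∈ W, ‖F ζ‖ ^ 2 := by
        refine mul_le_mul hcard ?_ (Finset.sum_nonneg (fun _ _ => sq_nonneg _)) (by linarith)
        exact Finset.sum_le_sum_of_subset_of_nonneg hsub (fun _ _ _ => sq_nonneg _)

end CSX2M

theorem specCSX2 : SpecCSX2 := by
  intro r p Y z B g hP _hT hK hPK hY
  unfold Var2
  rw [Finset.mul_sum]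
  exact Finset.sum_le_sum (fun b _ => CSX2M.general hP hK hPK hY (fun ζ => ls2 p ζ b g))

end Pool.Agent.Lib.MP391708.X
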