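import Pool.Agent.Lib.MP_391708_nt.MR.Basic
import Pool.Agent.Lib.MP_391708_nt.X.SpecO

/-!
# THEOREM X (MP_391708), module ONE: one scale

The variance bound and the main term give `cnt k b N ≥ N / (log N)^5` for all but few `b ∈ (B, 2B]`.
-/

set_option autoImplicit false

namespace Pool.Agent.Lib.MP391708.X

open Finset Filter Topology Pool.Agent.Lib.MP391708.MR
open scoped ComplexConjugate

namespace ONEM

lemma ls_sub (p : Par) (ζ : Gi) (b : ℕ) (g g' : Gi → ℂ) :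
    ls p ζ b (fun z => g z - g' z) = ls p ζ b g - ls p ζ b g' := by
  unfold ls
  simp only [Finset.sum_sub_distrib]

lemma sy_sub (p : Par) (y : Gi) (b : ℕ) (g g' : Gi → ℂ) :
    sy p y b (fun z => g z - g' z) = sy p y b g - sy p y b g' := by
  unfold sy
  simp only [ls_sub, Finset.sum_sub_distrib]

/-- a Gaussian integer of squarefree norm is primitive -/
lemma prim_of_sq {y : Gi} (h : Squarefree (nm y)) : prim y := by
  unfold prim
  have h1 : (Int.gcd y.re y.im) * (Int.gcd y.re y.im) ∣ nm y := by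
    have h2 : ((Int.gcd y.re y.im : ℕ) : ℤ) ∣ y.re := Int.gcd_dvd_left ..
    have h3 : ((Int.gcd y.re y.im : ℕ) : ℤ) ∣ y.im := Int.gcd_dvd_right ..
    have h4 : (((Int.gcd y.re y.im) * (Int.gcd y.re y.im) : ℕ) : ℤ) ∣ ((nm y : ℕ) : ℤ) := by
      rw [nm_cast]
      push_cast
      have h5 := mul_dvd_mul h2 h2
      have h6 := mul_dvd_mul h3 h3
      rw [pow_two, pow_two]
      exact dvd_add h5 h6
    exact_mod_cast h4
  exact Nat.isUnit_iff.1 (h _ h1)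

/-- the size conditions, in terms of `q = P`, `t = T`, `s = √N` -/
lemma sizes {q t s : ℝ} (hq : 2 ≤ q) (ht : 36 * q ≤ t) (hs : t * t ≤ s) :
    2 * q < s ∧ 2 * s < s * t / (16 * q) ∧ 2 * (s * t / (16 * q)) < s ^ 2 / t / q ∧ q ^ 2 < s ^ 2 / t ∧
      1 ≤ s ^ 2 / t ∧ 1 ≤ s ^ 2 := by
  have hq0 : 0 < q := by linarith
  have ht72 : 72 ≤ t := by linarith
  have ht0 : 0 < t := by linarith
  have hts : t ≤ s := by nlinarith
  have hs0 : 0 < s := by linarith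
  refine ⟨by linarith, ?_, ?_, ?_, ?_, by nlinarith⟩
  · rw [lt_div_iff₀ (by positivity)]
    nlinarith
  · rw [div_div, lt_div_iff₀ (by positivity)]
    have e : 2 * (s * t / (16 * q)) * (t * q) = s * (t * t) / 8 := by
      field_simp
      ring
    rw [e]
    nlinarith
  · rw [lt_div_iff₀ ht0]
    have h1 : q ^ 2 < s := by nlinarith
    nlinarith
  · rw [le_div_iff₀ ht0]
    nlinarith

/-- few bad `b` -/
lemma few {S : Finset ℕ} {D : ℕ → ℂ} {P : ℕ → Prop} [DecidablePred P] {N ℓ A B : ℝ} (hN : 0 < N) (hl : 3 ≤ ℓ)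
    (hB : 0 ≤ B) (h1 : ∀ b ∈ S, P b → N / ℓ ^ 4 ≤ ‖D b‖)
    (h2 : ∑ b ∈ S, ‖D b‖ ^ 2 ≤ 20 * ℓ ^ (-(A + 12)) * B * N ^ 2) :
    ((S.filter P).card : ℝ) ≤ B * ℓ ^ (-A) := by
  have hl0 : 0 < ℓ := by linarith
  have h3 : ((S.filter P).card : ℝ) * (N / ℓ ^ 4) ^ 2 ≤ ∑ b ∈ S, ‖D b‖ ^ 2 := by
    calc ((S.filter P).card : ℝ) * (N / ℓ ^ 4) ^ 2 = ∑ b ∈ S.filter P, (N / ℓ ^ 4) ^ 2 := by
          rw [Finset.sum_const, nsmul_eq_mul]
      _ ≤ ∑ b ∈ S.filter P, ‖D b‖ ^ 2 := by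
          refine Finset.sum_le_sum fun b hb => ?_
          rw [Finset.mem_filter] at hb
          exact pow_le_pow_left₀ (by positivity) (h1 b hb.1 hb.2) 2
      _ ≤ ∑ b ∈ S, ‖D b‖ ^ 2 :=
          Finset.sum_le_sum_of_subset_of_nonneg (Finset.filter_subset _ _) fun _ _ _ => by positivity
  have h4 : ℓ ^ (-(A + 12)) = ℓ ^ (-A) * (ℓ ^ 12)⁻¹ := by
    rw [neg_add, Real.rpow_add hl0, Real.rpow_neg hl0.le 12]
    norm_num
  have h5 : ((S.filter P).card : ℝ) * (N / ℓ ^ 4) ^ 2 ≤ 20 * (ℓ ^ (-A) * (ℓ ^ 12)⁻¹) * B * N ^ 2 := by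
    rw [← h4]
    exact h3.trans h2
  have hlA : 0 < ℓ ^ (-A) := Real.rpow_pos_of_pos hl0 _
  have h6 : ((S.filter P).card : ℝ) * ℓ ^ 4 ≤ 20 * (B * ℓ ^ (-A)) := by
    have e1 : ((S.filter P).card : ℝ) * ℓ ^ 4 * (N ^ 2 / ℓ ^ 12) =
        ((S.filter P).card : ℝ) * (N / ℓ ^ 4) ^ 2 := by
      field_simp
    have e2 : 20 * (B * ℓ ^ (-A)) * (N ^ 2 / ℓ ^ 12) = 20 * (ℓ ^ (-A) * (ℓ ^ 12)⁻¹) * B * N ^ 2 := by
      field_simp
    have h7 : 0 < N ^ 2 / ℓ ^ 12 := by positivity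
    refine le_of_mul_le_mul_right ?_ h7
    rw [e1, e2]
    exact h5
  have h8 : (81 : ℝ) ≤ ℓ ^ 4 := by
    calc (81 : ℝ) = 3 ^ 4 := by norm_num
      _ ≤ ℓ ^ 4 := pow_le_pow_left₀ (by norm_num) hl 4
  have h9 : (0 : ℝ) ≤ ((S.filter P).card : ℝ) := Nat.cast_nonneg _
  have h10 : 0 ≤ B * ℓ ^ (-A) := by positivity
  nlinarith

/-- the lower bound for `cnt` at one `b` -/
lemma lower {c : ℝ} {Y : Finset Gi} {E M : Gi → ℂ} {N ℓ : ℝ} (hN : 0 < N) (hl : 1 ≤ ℓ)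
    (hY : 1 ≤ ∑ y ∈ Y, 1 / (nm y : ℝ)) (h1 : (∑ y ∈ Y, E y).re ≤ c)
    (h2 : ∀ y ∈ Y, 2 * N / (ℓ ^ 4 * nm y) ≤ (M y).re) (h3 : c < N / ℓ ^ 5) :
    N / ℓ ^ 4 ≤ ‖∑ y ∈ Y, (E y - M y)‖ := by
  have h4 : 2 * N / ℓ ^ 4 ≤ ∑ y ∈ Y, (M y).re := by
    calc 2 * N / ℓ ^ 4 ≤ 2 * N / ℓ ^ 4 * ∑ y ∈ Y, 1 / (nm y : ℝ) := by
          refine le_mul_of_one_le_right (by positivity) hY
      _ = ∑ y ∈ Y, 2 * N / (ℓ ^ 4 * nm y) := by
          rw [Finset.mul_sum]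
          refine Finset.sum_congr rfl fun y _ => ?_
          rw [div_mul_div_comm, mul_one]
      _ ≤ ∑ y ∈ Y, (M y).re := Finset.sum_le_sum h2
  have h5 : (∑ y ∈ Y, (E y - M y)).re = (∑ y ∈ Y, E y).re - ∑ y ∈ Y, (M y).re := by
    rw [Finset.sum_sub_distrib, Complex.sub_re, Complex.re_sum Y M]
  have h6 := Complex.abs_re_le_norm (∑ y ∈ Y, (E y - M y))
  have h7 : N / ℓ ^ 5 ≤ N / ℓ ^ 4 := by
    refine div_le_div_of_nonneg_left hN.le (by positivity) ?_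
    exact pow_le_pow_right₀ hl (by norm_num)
  have h8 := neg_abs_le (∑ y ∈ Y, (E y - M y)).re
  have h9 : 2 * N / ℓ ^ 4 = N / ℓ ^ 4 + N / ℓ ^ 4 := by ring
  linarith

end ONEM

open ONEM in
theorem specONE (hVAR : SpecVAR) (hMT : SpecMT) (hYSET : SpecYSET) (hCNTX : SpecCNTX) (hCSX : SpecCSX) :
    SpecONE := by
  intro k hk A hA
  obtain ⟨cw, aU, aQ, aF, ch1, hcw, haU, haQ, haF, hch1, hV⟩ := hVAR (A + 12) (by linarith)
  obtain ⟨ch2, hM⟩ := hMT cw aU aQ aF hcw haU haQ haF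
  obtain ⟨ch, hch⟩ : ∃ ch, ch = max ch1 ch2 := ⟨_, rfl⟩
  obtain ⟨cP1, hV⟩ := hV ch (by rw [hch]; exact le_max_left _ _)
  obtain ⟨cP2, hM⟩ := hM ch (by rw [hch]; exact le_max_right _ _)
  obtain ⟨A', hA', hYS⟩ := hYSET (k - 4) (max cw aQ) (lt_max_of_lt_right (by linarith))
  obtain ⟨cP, hcP⟩ : ∃ cP, cP = max (max cP1 cP2) (2 * A' + 2) := ⟨_, rfl⟩
  have hcP1 : cP1 ≤ cP := by rw [hcP]; exact (le_max_left _ _).trans (le_max_left _ _)
  have hcP2 : cP2 ≤ cP := by rw [hcP]; exact (le_max_right _ _).trans (le_max_left _ _)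
  have hcP3 : 2 * A' + 2 ≤ cP := by rw [hcP]; exact le_max_right _ _
  obtain ⟨cT1, hV⟩ := hV cP hcP1
  obtain ⟨cT2, hM⟩ := hM cP hcP2
  obtain ⟨cT, hcT⟩ : ∃ cT, cT = max (max cT1 cT2) (cP + 2) := ⟨_, rfl⟩
  have hcT1 : cT1 ≤ cT := by rw [hcT]; exact (le_max_left _ _).trans (le_max_left _ _)
  have hcT2 : cT2 ≤ cT := by rw [hcT]; exact (le_max_right _ _).trans (le_max_left _ _)
  have hcT3 : cP + 2 ≤ cT := by rw [hcT]; exact le_max_right _ _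
  obtain ⟨cB1, hV⟩ := hV cT hcT1
  obtain ⟨cB2, hM⟩ := hM cT hcT2
  refine ⟨max (max cB1 cB2) 1, ?_⟩
  have hlog : ∀ᶠ N : ℝ in atTop, 36 ≤ Real.log N :=
    Real.tendsto_log_atTop.eventually (eventually_ge_atTop 36)
  have hsq : ∀ᶠ N : ℝ in atTop, Real.log N ^ (2 * cT) ≤ N ^ (1 / 2 : ℝ) := by
    have h := (isLittleO_log_rpow_rpow_atTop (2 * cT) (by norm_num : (0 : ℝ) < 1 / 2)).bound
      (by norm_num : (0 : ℝ) < 1)
    filter_upwards [h, eventually_ge_atTop 1] with N h1 h2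
    rw [one_mul, Real.norm_of_nonneg (Real.rpow_nonneg (Real.log_nonneg h2) _),
      Real.norm_of_nonneg (Real.rpow_nonneg (by linarith) _)] at h1
    exact h1
  filter_upwards [hV, hM, Real.tendsto_log_atTop.eventually hYS, hlog, hsq, eventually_gt_atTop 0] with
    N hV hM hYS hl hsq hN B hB hBN
  obtain ⟨Y, hY, hY1⟩ := hYS
  set ℓ := Real.log N with hℓ
  have hl0 : 0 < ℓ := by linarith
  have hl1 : 1 ≤ ℓ := by linarith
  have hB1 : ℓ ^ cB1 ≤ B := (Real.rpow_le_rpow_of_exponent_le hl1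
    ((le_max_left _ _).trans (le_max_left _ _))).trans hB
  have hB2 : ℓ ^ cB2 ≤ B := (Real.rpow_le_rpow_of_exponent_le hl1
    ((le_max_right _ _).trans (le_max_left _ _))).trans hB
  have hB0 : 0 < B := lt_of_lt_of_le (Real.rpow_pos_of_pos hl0 _) hB
  obtain ⟨U, hU, hVU⟩ := hV B hB1 hBN
  have hMU := hM B hB2 hBN U hU
  -- the sizes
  have hq : 2 ≤ ℓ ^ cP := by
    calc (2 : ℝ) ≤ ℓ ^ (1 : ℝ) := by rw [Real.rpow_one]; linarith
      _ ≤ ℓ ^ cP := Real.rpow_le_rpow_of_exponent_le hl1 (by linarith)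
  have ht : 36 * ℓ ^ cP ≤ ℓ ^ cT := by
    calc 36 * ℓ ^ cP ≤ ℓ ^ (1 : ℝ) * ℓ ^ cP := by
          rw [Real.rpow_one]
          exact mul_le_mul_of_nonneg_right hl (by linarith)
      _ = ℓ ^ (1 + cP) := (Real.rpow_add hl0 _ _).symm
      _ ≤ ℓ ^ cT := Real.rpow_le_rpow_of_exponent_le hl1 (by linarith)
  have hs : ℓ ^ cT * ℓ ^ cT ≤ Real.sqrt N := by
    rw [← Real.rpow_add hl0, Real.sqrt_eq_rpow, ← two_mul]
    exact hsq
  have hN2 : Real.sqrt N ^ 2 = N := Real.sq_sqrt hN.le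
  obtain ⟨s1, s2, s3, s4, s5, s6⟩ := sizes hq ht hs
  rw [hN2] at s3 s4 s5 s6
  obtain ⟨p, hp⟩ : ∃ p, p = par N cT cP ch cw := ⟨_, rfl⟩
  rw [← hp] at hVU hMU
  have pN : p.N = N := by rw [hp]; rfl
  have pT : p.T = ℓ ^ cT := by rw [hp]; rfl
  have pP : p.P = ℓ ^ cP := by rw [hp]; rfl
  have ph : p.h = ℓ ^ ch := by rw [hp]; rfl
  have pK : p.K = N / ℓ ^ cT := by rw [Par.K, pN, pT]
  have pM4 : p.M4 = Real.sqrt N := by rw [Par.M4, pN]
  have pM2 : p.M2 = Real.sqrt N * ℓ ^ cT / (16 * ℓ ^ cP) := by rw [Par.M2, pN, pT, pP]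
  have hT0 : 0 < ℓ ^ cT := Real.rpow_pos_of_pos hl0 _
  have hYOK : YOK (k - 4) (ℓ ^ max cw aQ) p.P Y := by
    refine ⟨hY.sq, hY.na, fun y hy => (hY.le y hy).trans ?_, hY.rg⟩
    rw [pP]
    exact Real.rpow_le_rpow_of_exponent_le hl1 (by linarith)
  have hcs := hCSX (k - 4) p Y _ B (fun z => Eta p z - Kap p U z) (by rw [pP]; exact hq)
    (by rw [pT]; exact hT0) (by rw [pK]; exact s5) (by rw [pP, pK]; exact s4) hYOK
  refine few (D := fun b => ∑ y ∈ Y, sy p y b (fun z => Eta p z - Kap p U z)) hN (by linarith) hB0.le ?_ ?_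
  · intro b hb hbc
    rw [Finset.mem_Ioc] at hb
    have hbB : B < b := (Nat.floor_lt hB0.le).1 hb.1
    have hbB2 : (b : ℝ) ≤ 2 * B := (Nat.le_floor_iff (by linarith)).1 hb.2
    have hb1 : 1 ≤ b := by
      have : (0 : ℝ) < b := by linarith
      exact_mod_cast this
    have hc := hCNTX k p Y _ b hk (by rw [pP]; exact hq) (by rw [ph]; exact Real.rpow_pos_of_pos hl0 _)
      (by rw [pT]; exact hT0) (by rw [pN]; exact s6) hYOK (by rw [pP, pM4]; exact s1)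
      (by rw [pM4, pM2]; exact s2) (by rw [pM2, pK, pP]; exact s3) hb1
    rw [pN] at hc
    simp only [sy_sub]
    refine lower hN hl1 hY1 hc ?_ hbc
    intro y hy
    refine hMU b hbB hbB2 y (prim_of_sq (hY.sq y hy).1) ?_ ?_
    · exact (hY.le y hy).trans (Real.rpow_le_rpow_of_exponent_le hl1 (by linarith))
    · intro π hπ hd
      have h := hY.rg y hy π hπ hd
      exact ⟨lt_of_le_of_lt (Real.rpow_le_rpow_of_exponent_le hl1 (le_max_left _ _)) h,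
        lt_of_le_of_lt (Real.rpow_le_rpow_of_exponent_le hl1 (le_max_right _ _)) h⟩
  · refine hcs.trans ?_
    have hK0 : 0 ≤ 20 * p.K := by rw [pK]; positivity
    refine (mul_le_mul_of_nonneg_left hVU hK0).trans (le_of_eq ?_)
    rw [pK, pT]
    field_simp

end Pool.Agent.Lib.MP391708.X
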