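import Pool.Agent.Lib.MP_391708_nt.X.O.ONE
import Pool.Agent.Lib.MP_391708_nt.X.Spec2

/-!
# THEOREM X (MP_391708), module ONE2: one scale, with lines without the condition `Re > 0`

The variance bound and the main term give `cnt k b N ≥ N / (log N)^5` for all but few `b ∈ (B, 2B]`.
-/

set_option autoImplicit false

namespace Pool.Agent.Lib.MP391708.X

open Finset Filter Topology Pool.Agent.Lib.MP391708.MR
open scoped ComplexConjugate

namespace ONE2M

lemma ls2_sub (p : Par) (ζ : Gi) (b : ℕ) (g g' : Gi → ℂ) :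
    ls2 p ζ b (fun z => g z - g' z) = ls2 p ζ b g - ls2 p ζ b g' := by
  unfold ls2
  simp only [Finset.sum_sub_distrib]

lemma sy2_sub (p : Par) (y : Gi) (b : ℕ) (g g' : Gi → ℂ) :
    sy2 p y b (fun z => g z - g' z) = sy2 p y b g - sy2 p y b g' := by
  unfold sy2
  simp only [ls2_sub, Finset.sum_sub_distrib]

lemma nm_sig (y : Gi) : nm (sig y) = nm y := by
  unfold nm sig
  rw [add_comm]

lemma sig_inj {x y : Gi} (h : sig x = sig y) : x = y := by
  unfold sig at h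
  have h1 := congrArg Zsqrtd.re h
  have h2 := congrArg Zsqrtd.im h
  exact Zsqrtd.ext h2 h1

/-- `Y'` contains the `sig y` -/
lemma sig_mem {Y Y' : Finset Gi} (h : ∀ f : Gi → ℂ, ∑ y ∈ Y', f y = ∑ y ∈ Y, f (sig y)) {y : Gi}
    (hy : y ∈ Y) : sig y ∈ Y' := by
  classical
  by_contra hc
  have h1 := h (fun w => if w = sig y then 1 else 0)
  have h2 : ∑ w ∈ Y', (if w = sig y then (1 : ℂ) else 0) = 0 := by
    refine Finset.sum_eq_zero fun w hw => ?_
    rw [if_neg]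
    intro he
    rw [he] at hw
    exact hc hw
  have h3 : ∑ x ∈ Y, (if sig x = sig y then (1 : ℂ) else 0) = 1 := by
    rw [Finset.sum_eq_single y]
    · rw [if_pos rfl]
    · intro x _ hx
      rw [if_neg]
      intro he
      exact hx (sig_inj he)
    · intro hn
      exact absurd hy hn
  rw [h2, h3] at h1
  exact zero_ne_one h1

end ONE2M

open ONEM ONE2M in
theorem specONE2 : SpecONE2 := by
  intro hVAR hMT hYSET hCNTX hCSX hSYM hSGU hYSG k hk A hA
  obtain ⟨cw, aU, aQ, aF, ch1, hcw, haU, haQ, haF, hch1, hV⟩ := hVAR (A + 12) (by linarith)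
  obtain ⟨ch2, hM⟩ := hMT cw aU aQ aF hcw haU haQ haF
  obtain ⟨ch, hch⟩ : ∃ ch, ch = max ch1 ch2 := ⟨_, rfl⟩
  have hch0 : ch1 ≤ ch := by rw [hch]; exact le_max_left _ _
  obtain ⟨cP1, hV⟩ := hV ch hch0
  obtain ⟨cP2, hM⟩ := hM ch (by rw [hch]; exact le_max_right _ _)
  obtain ⟨A', hA', hYS⟩ := hYSET (k - 4) (max cw aQ) (lt_max_of_lt_right (by linarith))
  obtain ⟨cP, hcP⟩ : ∃ cP, cP = max (max cP1 cP2) (2 * A' + 2) := ⟨_, rfl⟩
  have hcP1 : cP1 ≤ cP := by rw [hcP]; exact (le_max_left _ _).trans (le_max_left _ _)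
  have hcP2 : cP2 ≤ cP := by rw [hcP]; exact (le_max_right _ _).trans (le_max_left _ _)
  have hcP3 : 2 * A' + 2 ≤ cP := by rw [hcP]; exact le_max_right _ _
  obtain ⟨cT1, hV⟩ := hV cP hcP1
  obtain ⟨cT2, hM⟩ := hM cP hcP2
  obtain ⟨cT, hcT⟩ : ∃ cT, cT = max (max cT1 cT2) (cP + 2) := ⟨_, rfl⟩
  have hcT1 : cT1 ≤ cT := by rw [hcT]; exact (le_max_left _ _).trans (le_max_left _ _)
  have hcT2 : cT2 ≤ cT := by rw [hcT]; exact (le_max_right _ _).trans (le_max_left _ _)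
  have hcT3 : cP + 2 ≤ cT := by rw [hcT]; exact le_max_right _ _
  obtain ⟨cB1, hV⟩ := hV cT hcT1
  obtain ⟨cB2, hM⟩ := hM cT hcT2
  refine ⟨max (max cB1 cB2) 1, ?_⟩
  have hlog : ∀ᶠ N : ℝ in atTop, 36 ≤ Real.log N :=
    Real.tendsto_log_atTop.eventually (eventually_ge_atTop 36)
  have hsq : ∀ᶠ N : ℝ in atTop, Real.log N ^ (2 * cT) ≤ N ^ (1 / 2 : ℝ) := by
    have h := (isLittleO_log_rpow_rpow_atTop (2 * cT) (by norm_num : (0 : ℝ) < 1 / 2)).bound
      (by norm_num : (0 : ℝ) < 1)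
    filter_upwards [h, eventually_ge_atTop 1] with N h1 h2
    rw [one_mul, Real.norm_of_nonneg (Real.rpow_nonneg (Real.log_nonneg h2) _),
      Real.norm_of_nonneg (Real.rpow_nonneg (by linarith) _)] at h1
    exact h1
  filter_upwards [hV, hM, Real.tendsto_log_atTop.eventually hYS, hlog, hsq, eventually_gt_atTop 1024] with
    N hV hM hYS hl hsq hN1024 B hB hBN
  have hN : 0 < N := by linarith
  obtain ⟨Y, hY, hY1⟩ := hYS
  set ℓ := Real.log N with hℓ
  have hl0 : 0 < ℓ := by linarith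
  have hl1 : 1 ≤ ℓ := by linarith
  have hB1 : ℓ ^ cB1 ≤ B := (Real.rpow_le_rpow_of_exponent_le hl1
    ((le_max_left _ _).trans (le_max_left _ _))).trans hB
  have hB2 : ℓ ^ cB2 ≤ B := (Real.rpow_le_rpow_of_exponent_le hl1
    ((le_max_right _ _).trans (le_max_left _ _))).trans hB
  have hB0 : 0 < B := lt_of_lt_of_le (Real.rpow_pos_of_pos hl0 _) hB
  obtain ⟨U, hU, hVU⟩ := hV B hB1 hBN
  have hMU := hM B hB2 hBN U hU
  have hMU' := hM B hB2 hBN (sigU U) (hSGU _ _ _ U hU)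
  -- the sizes
  have hq : 2 ≤ ℓ ^ cP := by
    calc (2 : ℝ) ≤ ℓ ^ (1 : ℝ) := by rw [Real.rpow_one]; linarith
      _ ≤ ℓ ^ cP := Real.rpow_le_rpow_of_exponent_le hl1 (by linarith)
  have ht : 36 * ℓ ^ cP ≤ ℓ ^ cT := by
    calc 36 * ℓ ^ cP ≤ ℓ ^ (1 : ℝ) * ℓ ^ cP := by
          rw [Real.rpow_one]
          exact mul_le_mul_of_nonneg_right hl (by linarith)
      _ = ℓ ^ (1 + cP) := (Real.rpow_add hl0 _ _).symm
      _ ≤ ℓ ^ cT := Real.rpow_le_rpow_of_exponent_le hl1 (by linarith)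
  have hs : ℓ ^ cT * ℓ ^ cT ≤ Real.sqrt N := by
    rw [← Real.rpow_add hl0, Real.sqrt_eq_rpow, ← two_mul]
    exact hsq
  have hN2 : Real.sqrt N ^ 2 = N := Real.sq_sqrt hN.le
  obtain ⟨s1, s2, s3, s4, s5, s6⟩ := sizes hq ht hs
  rw [hN2] at s3 s4 s5 s6
  obtain ⟨p, hp⟩ : ∃ p, p = par N cT cP ch cw := ⟨_, rfl⟩
  rw [← hp] at hVU hMU hMU'
  have pN : p.N = N := by rw [hp]; rfl
  have pT : p.T = ℓ ^ cT := by rw [hp]; rfl
  have pP : p.P = ℓ ^ cP := by rw [hp]; rfl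
  have ph : p.h = ℓ ^ ch := by rw [hp]; rfl
  have pK : p.K = N / ℓ ^ cT := by rw [Par.K, pN, pT]
  have pM4 : p.M4 = Real.sqrt N := by rw [Par.M4, pN]
  have pM2 : p.M2 = Real.sqrt N * ℓ ^ cT / (16 * ℓ ^ cP) := by rw [Par.M2, pN, pT, pP]
  have hT0 : 0 < ℓ ^ cT := Real.rpow_pos_of_pos hl0 _
  have hh1 : 1 ≤ ℓ ^ ch := by
    calc (1 : ℝ) = ℓ ^ (0 : ℝ) := (Real.rpow_zero _).symm
      _ ≤ ℓ ^ ch := Real.rpow_le_rpow_of_exponent_le hl1 (by linarith)
  have hM2 : 1 ≤ p.M2 := by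
    rw [pM2]
    linarith
  have hYOK : YOK (k - 4) (ℓ ^ max cw aQ) p.P Y := by
    refine ⟨hY.sq, hY.na, fun y hy => (hY.le y hy).trans ?_, hY.rg⟩
    rw [pP]
    exact Real.rpow_le_rpow_of_exponent_le hl1 (by linarith)
  obtain ⟨Y', hYOK', hYY'⟩ := hYSG _ _ _ Y hYOK
  have hcs := hCSX (k - 4) p Y _ B (fun z => Eta p z - Kap p U z) (by rw [pP]; exact hq)
    (by rw [pT]; exact hT0) (by rw [pK]; exact s5) (by rw [pP, pK]; exact s4) hYOK
  refine few (D := fun b => ∑ y ∈ Y, sy2 p y b (fun z => Eta p z - Kap p U z)) hN (by linarith) hB0.le ?_ ?_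
  · intro b hb hbc
    rw [Finset.mem_Ioc] at hb
    have hbB : B < b := (Nat.floor_lt hB0.le).1 hb.1
    have hbB2 : (b : ℝ) ≤ 2 * B := (Nat.le_floor_iff (by linarith)).1 hb.2
    have hb1 : 1 ≤ b := by
      have : (0 : ℝ) < b := by linarith
      exact_mod_cast this
    have hb2 : 128 * (b : ℝ) ^ 2 < p.N ^ 2 := by
      rw [pN]
      have h1 : (b : ℝ) ^ 2 ≤ (2 * B) ^ 2 := pow_le_pow_left₀ (by linarith) hbB2 2
      nlinarith
    have hcn : ∀ Z : Finset Gi, YOK (k - 4) (ℓ ^ max cw aQ) p.P Z →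
        (∑ y ∈ Z, sy p y b (Eta p)).re ≤ (cnt k b p.N : ℝ) := fun Z hZ =>
      hCNTX k p Z _ b hk (by rw [pP]; exact hq) (by rw [ph]; linarith)
      (by rw [pT]; exact hT0) (by rw [pN]; exact s6) hZ (by rw [pP, pM4]; exact s1)
      (by rw [pM4, pM2]; exact s2) (by rw [pM2, pK, pP]; exact s3) hb1
    have hc1 := hcn Y hYOK
    have hc2 := hcn Y' hYOK'
    rw [hYY'] at hc2
    rw [pN] at hc1 hc2
    have hsym : ∀ y ∈ Y, sy2 p y b (Kap p U) = sy p y b (Kap p U) + sy p (sig y) b (Kap p (sigU U)) ∧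
        sy2 p y b (Eta p) = sy p y b (Eta p) + sy p (sig y) b (Eta p) := by
      intro y hy
      refine hSYM p U y b (by rw [pN]; exact s6) (by rw [ph]; exact hh1) (by rw [pT]; exact hT0)
        (by rw [pP]; exact hq) hM2 ?_ hb1 hb2 ?_
      · intro h0
        have h1 := (hY.sq y hy).1.ne_zero
        rw [h0] at h1
        exact h1 nm_zero
      · intro i hi
        exact ⟨hU.adm i hi, i.1, (hU.ch i hi).1, (hU.ch i hi).2.2⟩
    have hE : (∑ y ∈ Y, sy2 p y b (Eta p)).re ≤ 2 * (cnt k b N : ℝ) := by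
      rw [Finset.sum_congr rfl fun y hy => (hsym y hy).2, Finset.sum_add_distrib, Complex.add_re]
      linarith
    have hbc' : 2 * (cnt k b N : ℝ) < 2 * N / ℓ ^ 5 := by
      rw [mul_div_assoc]
      linarith
    simp only [sy2_sub]
    have hlow := lower (N := 2 * N) (by linarith) hl1 hY1 hE (M := fun y => sy2 p y b (Kap p U)) ?_ hbc'
    · refine le_trans ?_ hlow
      have h1 : 0 < N / ℓ ^ 4 := by positivity
      rw [mul_div_assoc]
      linarith
    · intro y hy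
      have h1 := hMU b hbB hbB2 y (prim_of_sq (hY.sq y hy).1)
        ((hY.le y hy).trans (Real.rpow_le_rpow_of_exponent_le hl1 (by linarith))) (by
        intro π hπ hd
        have h := hY.rg y hy π hπ hd
        exact ⟨lt_of_le_of_lt (Real.rpow_le_rpow_of_exponent_le hl1 (le_max_left _ _)) h,
          lt_of_le_of_lt (Real.rpow_le_rpow_of_exponent_le hl1 (le_max_right _ _)) h⟩)
      have hys := sig_mem hYY' hy
      have h2 := hMU' b hbB hbB2 (sig y) (prim_of_sq (hYOK'.sq _ hys).1)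
        (by rw [nm_sig]; exact (hY.le y hy).trans (Real.rpow_le_rpow_of_exponent_le hl1 (by linarith))) (by
        intro π hπ hd
        have h := hYOK'.rg _ hys π hπ hd
        exact ⟨lt_of_le_of_lt (Real.rpow_le_rpow_of_exponent_le hl1 (le_max_left _ _)) h,
          lt_of_le_of_lt (Real.rpow_le_rpow_of_exponent_le hl1 (le_max_right _ _)) h⟩)
      rw [nm_sig] at h2
      change 2 * (2 * N) / (ℓ ^ 4 * nm y) ≤ (sy2 p y b (Kap p U)).re
      rw [(hsym y hy).1, Complex.add_re]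
      have h3 : 2 * (2 * N) / (ℓ ^ 4 * nm y) = 2 * N / (ℓ ^ 4 * nm y) + 2 * N / (ℓ ^ 4 * nm y) := by ring
      linarith
  · refine hcs.trans ?_
    have hK0 : 0 ≤ 20 * p.K := by rw [pK]; positivity
    refine (mul_le_mul_of_nonneg_left hVU hK0).trans (le_of_eq ?_)
    rw [pK, pT]
    field_simp

end Pool.Agent.Lib.MP391708.X
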