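import Pool.Agent.Lib.MP_391708_nt.X.SpecO
import Pool.Agent.Lib.MP_391708_nt.MR.Basic

/-!
# THEOREM X (MP_391708), part O, module YSET: the set of outer factors (helper24)
-/

set_option autoImplicit false

namespace Pool.Agent.Lib.MP391708.X

open Finset Filter Topology Pool.Agent.Lib.MP391708.MR
open scoped ComplexConjugate

namespace YSETM

/-- associated products with a prime of large norm -/
lemma assoc_cases {r : ℕ} {z D E F : ℝ} {Y : Finset Gi} (hD : D ≤ E) (hY : YOK r z D Y)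
    {y y' π π' : Gi} (hy : y ∈ Y) (hy' : y' ∈ Y) (hπ : π ∈ GP E F) (hπ' : π' ∈ GP E F)
    (h : Associated (y * π) (y' * π')) : y = y' ∧ π = π' := by
  have hp : Prime π := GP_prime hπ
  have hd : π ∣ y' * π' := (Dvd.intro_left y rfl).trans h.dvd
  have hne : π' = π := by
    rcases hp.dvd_or_dvd hd with h1 | h1
    · exfalso
      have h2 := nm_dvd h1
      have h3 : nm y' ≠ 0 := (hY.sq y' hy').1.ne_zero
      have h4 : nm π ≤ nm y' := Nat.le_of_dvd (Nat.pos_of_ne_zero h3) h2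
      have h5 : (nm π : ℝ) ≤ (nm y' : ℝ) := by exact_mod_cast h4
      have h6 := hY.le y' hy'
      have h7 := (mem_GP.1 hπ).2.2.2.2.1
      linarith
    · exact GP_eq_of_dvd hπ hπ' h1
  subst hne
  refine ⟨?_, rfl⟩
  exact hY.na y hy y' hy' (Associated.of_mul_right h (Associated.refl _) hp.ne_zero)

/-- one more prime -/
lemma step {r : ℕ} {z D E F : ℝ} {Y : Finset Gi} (hz : z ≤ E) (hD : D ≤ E) (hY : YOK r z D Y)
    (hs : 1 ≤ ∑ y ∈ Y, 1 / (nm y : ℝ)) (hW : 1 ≤ WW E F) :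
    ∃ Y' : Finset Gi, YOK (r + 1) z (D * F) Y' ∧ 1 ≤ ∑ y ∈ Y', 1 / (nm y : ℝ) := by
  classical
  have hlt : ∀ y ∈ Y, ∀ π ∈ GP E F, nm y < nm π := by
    intro y hy π hπ
    have h6 := hY.le y hy
    have h7 := (mem_GP.1 hπ).2.2.2.2.1
    have h8 : (nm y : ℝ) < (nm π : ℝ) := by linarith
    exact_mod_cast h8
  have hcop : ∀ y ∈ Y, ∀ π ∈ GP E F, Nat.Coprime (nm y) (nm π) := by
    intro y hy π hπ
    have hpr : (nm π).Prime := (mem_GP.1 hπ).2.2.1
    have h0 : nm y ≠ 0 := (hY.sq y hy).1.ne_zero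
    have hnd : ¬ nm π ∣ nm y := fun hd =>
      absurd (Nat.le_of_dvd (Nat.pos_of_ne_zero h0) hd) (not_le.2 (hlt y hy π hπ))
    exact ((Nat.Prime.coprime_iff_not_dvd hpr).2 hnd).symm
  refine ⟨(Y ×ˢ GP E F).image (fun q => q.1 * q.2), ⟨?_, ?_, ?_, ?_⟩, ?_⟩
  · intro w hw
    obtain ⟨⟨y, π⟩, hq, rfl⟩ := mem_image.1 hw
    obtain ⟨hy, hπ⟩ := mem_product.1 hq
    simp only at hy hπ ⊢
    have hpr : (nm π).Prime := (mem_GP.1 hπ).2.2.1
    have hc := hcop y hy π hπ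
    rw [nm_mul]
    refine ⟨(Nat.squarefree_mul_iff).2 ⟨hc, (hY.sq y hy).1, hpr.squarefree⟩, ?_⟩
    rw [Nat.Coprime.primeFactors_mul hc, Finset.card_union_of_disjoint hc.disjoint_primeFactors,
      (hY.sq y hy).2, Nat.Prime.primeFactors hpr, Finset.card_singleton]
  · intro w hw w' hw' h
    obtain ⟨⟨y, π⟩, hq, rfl⟩ := mem_image.1 hw
    obtain ⟨⟨y', π'⟩, hq', rfl⟩ := mem_image.1 hw'
    obtain ⟨hy, hπ⟩ := mem_product.1 hq
    obtain ⟨hy', hπ'⟩ := mem_product.1 hq'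
    simp only at hy hπ hy' hπ' h ⊢
    obtain ⟨h1, h2⟩ := assoc_cases hD hY hy hy' hπ hπ' h
    rw [h1, h2]
  · intro w hw
    obtain ⟨⟨y, π⟩, hq, rfl⟩ := mem_image.1 hw
    obtain ⟨hy, hπ⟩ := mem_product.1 hq
    simp only at hy hπ ⊢
    rw [nm_mul]
    push_cast
    have h1 := hY.le y hy
    exact mul_le_mul h1 (mem_GP.1 hπ).2.2.2.2.2 (Nat.cast_nonneg _)
      (le_trans (Nat.cast_nonneg _) h1)
  · intro w hw ρ hρ hd
    obtain ⟨⟨y, π⟩, hq, rfl⟩ := mem_image.1 hw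
    obtain ⟨hy, hπ⟩ := mem_product.1 hq
    simp only at hy hπ hd
    rcases hρ.dvd_or_dvd hd with h1 | h1
    · exact hY.rg y hy ρ hρ h1
    · have hpr : (nm π).Prime := (mem_GP.1 hπ).2.2.1
      have h2 := nm_dvd h1
      rcases (Nat.dvd_prime hpr).1 h2 with h3 | h3
      · exact absurd (isUnit_iff_nm.2 h3) hρ.not_isUnit
      · rw [h3]
        exact lt_of_le_of_lt hz (mem_GP.1 hπ).2.2.2.2.1
  · rw [Finset.sum_image]
    · have h1 : ∑ q ∈ Y ×ˢ GP E F, 1 / (nm (q.1 * q.2) : ℝ) =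
          (∑ y ∈ Y, 1 / (nm y : ℝ)) * WW E F := by
        rw [WW, Finset.sum_mul_sum, Finset.sum_product]
        refine Finset.sum_congr rfl fun y _ => Finset.sum_congr rfl fun π _ => ?_
        rw [nm_mul]
        push_cast
        rw [one_div_mul_one_div]
      rw [h1]
      nlinarith
    · rintro ⟨y, π⟩ hq ⟨y', π'⟩ hq' h
      obtain ⟨hy, hπ⟩ := mem_product.1 hq
      obtain ⟨hy', hπ'⟩ := mem_product.1 hq'
      simp only at hy hπ hy' hπ' h
      obtain ⟨h1, h2⟩ := assoc_cases hD hY hy hy' hπ hπ' (by rw [h])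
      rw [h1, h2]

/-- the prime sum over `(x^c, x^(c D)]` -/
lemma WW_ge {C : ℝ} (hC : ∀ P Q : ℝ, 3 ≤ P → P ≤ Q →
    |WW P Q - (Real.log (Real.log Q) - Real.log (Real.log P))| ≤ C) {x c : ℝ} (hx : 1 < x)
    (hc : 0 < c) (h3 : 3 ≤ x ^ c) (hC0 : 0 ≤ C) :
    1 ≤ WW (x ^ c) (x ^ (Real.exp (C + 1) * c)) := by
  have hD : (1 : ℝ) ≤ Real.exp (C + 1) := Real.one_le_exp (by linarith)
  have hle : x ^ c ≤ x ^ (Real.exp (C + 1) * c) :=
    Real.rpow_le_rpow_of_exponent_le hx.le (by nlinarith)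
  have h := hC _ _ h3 hle
  have hx0 : 0 < x := by linarith
  have hlx : 0 < Real.log x := Real.log_pos hx
  have h1 : Real.log (Real.log (x ^ (Real.exp (C + 1) * c))) - Real.log (Real.log (x ^ c)) = C + 1 := by
    rw [Real.log_rpow hx0, Real.log_rpow hx0, mul_assoc, Real.log_mul (Real.exp_pos _).ne'
      (mul_pos hc hlx).ne', Real.log_exp]
    ring
  rw [h1] at h
  have h2 := (abs_le.1 h).1
  linarith

end YSETM

open YSETM in
theorem specYSET (hPG : SpecPG) : SpecYSET := by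
  obtain ⟨C, hC⟩ := hPG.2.1
  have hC0 : 0 ≤ C := le_trans (abs_nonneg _) (hC 3 3 le_rfl le_rfl)
  intro r a ha
  induction r with
  | zero =>
    refine ⟨1, one_pos, ?_⟩
    filter_upwards [eventually_ge_atTop (1 : ℝ)] with x hx
    have h1 : nm (1 : Gi) = 1 := by simp [nm]
    refine ⟨{1}, ⟨?_, ?_, ?_, ?_⟩, ?_⟩
    · intro y hy
      rw [mem_singleton] at hy
      subst hy
      rw [h1]
      exact ⟨squarefree_one, by simp⟩
    · intro y hy y' hy' _
      rw [mem_singleton] at hy hy'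
      rw [hy, hy']
    · intro y hy
      rw [mem_singleton] at hy
      subst hy
      rw [h1, Real.rpow_one]
      exact_mod_cast hx
    · intro y hy π hπ hd
      rw [mem_singleton] at hy
      subst hy
      exact absurd (isUnit_of_dvd_one hd) hπ.not_isUnit
    · rw [sum_singleton, h1]
      norm_num
  | succ r ih =>
    obtain ⟨A', hA', hev⟩ := ih
    have hA2 : 0 < max A' a := lt_max_of_lt_left hA'
    refine ⟨A' + Real.exp (C + 1) * max A' a, by positivity, ?_⟩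
    filter_upwards [hev, eventually_gt_atTop (1 : ℝ),
      (tendsto_rpow_atTop hA2).eventually_ge_atTop 3] with x hx hx1 hx3
    obtain ⟨Y, hY, hs⟩ := hx
    have hx0 : 0 < x := by linarith
    obtain ⟨Y', hY', hs'⟩ := step (E := x ^ max A' a) (F := x ^ (Real.exp (C + 1) * max A' a))
      (Real.rpow_le_rpow_of_exponent_le hx1.le (le_max_right _ _))
      (Real.rpow_le_rpow_of_exponent_le hx1.le (le_max_left _ _)) hY hs
      (WW_ge hC hx1 hA2 hx3 hC0)
    refine ⟨Y', ?_, hs'⟩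
    rw [Real.rpow_add hx0]
    exact hY'

end Pool.Agent.Lib.MP391708.X
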