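import Pool.Agent.Lib.MP_391708_nt.X.Spec2
import Pool.Agent.Lib.MP_391708_nt.MR.Basic

/-!
# THEOREM X (MP_391708), part O, module YSG: the conjugate outer factors (helper24)
-/

set_option autoImplicit false

namespace Pool.Agent.Lib.MP391708.X

open Finset Filter Topology Pool.Agent.Lib.MP391708.MR
open scoped ComplexConjugate

namespace YSGM

lemma sig_sig (z : Gi) : sig (sig z) = z := by
  ext <;> rfl

lemma sig_inj {z w : Gi} (h : sig z = sig w) : z = w := by
  rw [← sig_sig z, h, sig_sig]

lemma sig_eq (z : Gi) : sig z = ⟨0, 1⟩ * star z := by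
  ext <;> simp [sig]

lemma isUnit_I : IsUnit (⟨0, 1⟩ : Gi) := by
  refine IsUnit.of_mul_eq_one (⟨0, -1⟩ : Gi) ?_
  ext <;> simp

lemma assoc_sig (z : Gi) : Associated (sig z) (star z) := by
  rw [sig_eq]
  exact (associated_isUnit_mul_left_iff isUnit_I).2 (Associated.refl _)

lemma nm_star' (z : Gi) : nm (star z) = nm z := by
  unfold nm
  simp

lemma nm_sig (z : Gi) : nm (sig z) = nm z := by
  unfold nm
  simp only [sig]
  congr 1
  ring

lemma assoc_star {z w : Gi} (h : Associated (star z) (star w)) : Associated z w := by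
  have h1 := h.map (starRingAut : Gi ≃+* Gi)
  simpa using h1

lemma prime_star {z : Gi} (h : Prime z) : Prime (star z) := by
  have h1 := (MulEquiv.prime_iff (starRingAut : Gi ≃+* Gi).toMulEquiv (p := z)).2 h
  simpa using h1

end YSGM

open YSGM in
theorem specYSG : SpecYSG := by
  classical
  intro r z D Y hY
  refine ⟨Y.image sig, ⟨?_, ?_, ?_, ?_⟩, ?_⟩
  · intro w hw
    obtain ⟨y, hy, rfl⟩ := mem_image.1 hw
    rw [nm_sig]
    exact hY.sq y hy
  · intro w hw w' hw' h
    obtain ⟨y, hy, rfl⟩ := mem_image.1 hw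
    obtain ⟨y', hy', rfl⟩ := mem_image.1 hw'
    have h1 : Associated (star y) (star y') := ((assoc_sig y).symm.trans h).trans (assoc_sig y')
    rw [hY.na y hy y' hy' (assoc_star h1)]
  · intro w hw
    obtain ⟨y, hy, rfl⟩ := mem_image.1 hw
    rw [nm_sig]
    exact hY.le y hy
  · intro w hw π hπ hd
    obtain ⟨y, hy, rfl⟩ := mem_image.1 hw
    have h1 : π ∣ star y := hd.trans (assoc_sig y).dvd
    have h2 : star π ∣ y := by
      have := map_dvd (starRingAut : Gi ≃+* Gi) h1
      simpa using this
    rw [← nm_star' π]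
    exact hY.rg y hy (star π) (prime_star hπ) h2
  · intro f
    rw [Finset.sum_image]
    intro a _ b _ h
    exact sig_inj h

end Pool.Agent.Lib.MP391708.X
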